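import Pool.Agent.MP_cfa423_co.Defs

-- part MP_cfa423_co.Basic
section

/-!
General facts on the stack machine.
-/

namespace Pool.Agent.MP_cfa423_co

open List

theorem run_nil (T : Set (List ℕ)) (st : List ℕ) : run T [] st = st := by rw [run]

theorem run_cons_nil (T : Set (List ℕ)) (x : ℕ) (inp : List ℕ) :
    run T (x :: inp) [] = run T inp [x] := by rw [run]

theorem run_push {T : Set (List ℕ)} {x y : ℕ} {inp st : List ℕ} (h : Avoids (x :: y :: st) T) :
    run T (x :: inp) (y :: st) = run T inp (x :: y :: st) := by rw [run, if_pos h]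

theorem run_pop {T : Set (List ℕ)} {x y : ℕ} {inp st : List ℕ} (h : ¬ Avoids (x :: y :: st) T) :
    run T (x :: inp) (y :: st) = y :: run T (x :: inp) st := by rw [run, if_neg h]

theorem run_perm (T : Set (List ℕ)) (inp st : List ℕ) : run T inp st ~ inp ++ st := by
  induction inp, st using run.induct T with
  | case1 st => simp [run_nil]
  | case2 x inp ih => rw [run_cons_nil]; exact ih.trans (by simp [perm_append_comm])
  | case3 x inp y st h ih =>
    rw [run_push h]
    exact ih.trans (perm_middle.trans (by simp))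
  | case4 x inp y st h ih =>
    rw [run_pop h]
    exact (ih.cons y).trans perm_middle.symm

theorem sortMap_perm (T : Set (List ℕ)) (p : List ℕ) : sortMap T p ~ p := by
  simpa [sortMap] using run_perm T p []

theorem stack_sublist_run (T : Set (List ℕ)) (inp st : List ℕ) : st <+ run T inp st := by
  induction inp, st using run.induct T with
  | case1 st => simp [run_nil]
  | case2 x inp ih => simp
  | case3 x inp y st h ih =>
    rw [run_push h]
    exact (sublist_cons_self _ _).trans ih
  | case4 x inp y st h ih =>
    rw [run_pop h]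
    exact ih.cons₂ y

theorem contains_three {l : List ℕ} {p q r : ℕ} :
    Contains l [p, q, r] ↔ ∃ a b c, [a, b, c] <+ l ∧ (a < b ↔ p < q) ∧ (b < a ↔ q < p) ∧
      (a < c ↔ p < r) ∧ (c < a ↔ r < p) ∧ (b < c ↔ q < r) ∧ (c < b ↔ r < q) := by
  constructor
  · rintro ⟨u, hu, hl, h⟩
    match u, hl with
    | [a, b, c], _ =>
      exact ⟨a, b, c, hu, h 0 1 (by simp) (by simp), h 1 0 (by simp) (by simp),
        h 0 2 (by simp) (by simp), h 2 0 (by simp) (by simp), h 1 2 (by simp) (by simp),
        h 2 1 (by simp) (by simp)⟩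
  · rintro ⟨a, b, c, hu, h1, h2, h3, h4, h5, h6⟩
    refine ⟨[a, b, c], hu, rfl, fun i j hi hj => ?_⟩
    simp only [length_cons, length_nil] at hi hj
    interval_cases i <;> interval_cases j <;> simp [*]

theorem avoids_of_length_lt {T : Set (List ℕ)} (hT : ∀ σ ∈ T, σ.length = 3) {l : List ℕ}
    (hl : l.length < 3) : Avoids l T := by
  rintro σ hσ ⟨u, hu, h, -⟩
  have := hu.length_le
  have := hT σ hσ
  omega

theorem Avoids.sublist {T : Set (List ℕ)} {l l' : List ℕ} (h : Avoids l T) (hl : l' <+ l) :
    Avoids l' T := by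
  rintro σ hσ ⟨u, hu, h'⟩
  exact h σ hσ ⟨u, hu.trans hl, h'⟩

/-- The bottom entry of the stack comes out last. -/
theorem run_append_bottom {T : Set (List ℕ)} (hT : ∀ σ ∈ T, σ.length = 3) (a : ℕ)
    (inp st : List ℕ) : ∃ out, run T inp (st ++ [a]) = out ++ [a] := by
  generalize hs : st ++ [a] = s
  induction inp, s using run.induct T generalizing st with
  | case1 s => exact ⟨st, by rw [run_nil, hs]⟩
  | case2 x inp ih => simp at hs
  | case3 x inp y s h ih =>
    rw [run_push h]
    exact ih (x :: st) (by rw [cons_append, hs])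
  | case4 x inp y s h ih =>
    rw [run_pop h]
    cases st with
    | nil =>
      simp only [nil_append, cons.injEq] at hs
      exact absurd (avoids_of_length_lt hT (by rw [← hs.2]; simp)) h
    | cons z st =>
      simp only [cons_append, cons.injEq] at hs
      obtain ⟨out, ho⟩ := ih st hs.2
      exact ⟨y :: out, by rw [ho]; rfl⟩

theorem sortMap_cons {T : Set (List ℕ)} (hT : ∀ σ ∈ T, σ.length = 3) (a : ℕ) (p : List ℕ) :
    ∃ out, sortMap T (a :: p) = out ++ [a] := by
  rw [sortMap, run_cons_nil]
  exact run_append_bottom hT a p []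

/-- If everything can be pushed, the output is the reverse of the input. -/
theorem run_of_avoids {T : Set (List ℕ)} (inp st : List ℕ) (h : Avoids (inp.reverse ++ st) T) :
    run T inp st = inp.reverse ++ st := by
  induction inp generalizing st with
  | nil => simp [run_nil]
  | cons x inp ih =>
    have h' : Avoids (inp.reverse ++ x :: st) T := by simpa using h
    cases st with
    | nil => rw [run_cons_nil, ih _ h']; simp
    | cons y st =>
      rw [run_push (h'.sublist (sublist_append_right _ _)), ih _ h']; simp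

end Pool.Agent.MP_cfa423_co

end

-- part MP_cfa423_co.T2
section

/-!
Every permutation is eventually sorted by `s_{231,213}`.
-/

namespace Pool.Agent.MP_cfa423_co

open List

theorem pair_total {l : List ℕ} {x y : ℕ} (hx : x ∈ l) (hy : y ∈ l) (h : x ≠ y) :
    [x, y] <+ l ∨ [y, x] <+ l := by
  induction l with
  | nil => simp at hx
  | cons z l ih =>
    rcases mem_cons.1 hx with rfl | hx'
    · rcases mem_cons.1 hy with rfl | hy'
      · exact absurd rfl h
      · exact Or.inl ((singleton_sublist.2 hy').cons_cons x)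
    · rcases mem_cons.1 hy with rfl | hy'
      · exact Or.inr ((singleton_sublist.2 hx').cons_cons y)
      · exact (ih hx' hy').imp (·.cons z) (·.cons z)

theorem pair_antisymm {l : List ℕ} (hl : l.Nodup) {x y : ℕ} (h : [x, y] <+ l) :
    ¬ [y, x] <+ l := by
  induction l with
  | nil => simp at h
  | cons z l ih =>
    intro h'
    rw [nodup_cons] at hl
    rcases sublist_cons_iff.1 h with h1 | ⟨r, hr, h1⟩
    · rcases sublist_cons_iff.1 h' with h2 | ⟨r, hr, h2⟩
      · exact ih hl.2 h1 h2
      · obtain ⟨rfl, rfl⟩ := cons.inj hr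
        exact hl.1 (h1.subset (by simp))
    · obtain ⟨rfl, rfl⟩ := cons.inj hr
      rcases sublist_cons_iff.1 h' with h2 | ⟨r, hr, h2⟩
      · exact hl.1 (h2.subset (by simp))
      · obtain ⟨rfl, rfl⟩ := cons.inj hr
        exact hl.1 (h2.subset (by simp))

theorem pair_ne {l : List ℕ} (hl : l.Nodup) {x y : ℕ} (h : [x, y] <+ l) : x ≠ y := by
  rintro rfl
  have := hl.sublist h
  simp at this

theorem pair_cons {l : List ℕ} {x y z : ℕ} (h : [x, y] <+ z :: l) :
    (x = z ∧ y ∈ l) ∨ [x, y] <+ l := by
  rcases sublist_cons_iff.1 h with h1 | ⟨r, hr, h1⟩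
  · exact Or.inr h1
  · obtain ⟨rfl, rfl⟩ := cons.inj hr
    exact Or.inl ⟨rfl, singleton_sublist.1 h1⟩

theorem not_pair_last {out : List ℕ} {a y : ℕ} (hl : (out ++ [a]).Nodup) :
    ¬ [a, y] <+ out ++ [a] := by
  intro h
  have hne := pair_ne hl h
  have hy : y ∈ out := by
    have : y ∈ out ++ [a] := h.subset (by simp)
    rcases mem_append.1 this with h' | h'
    · exact h'
    · exact absurd (mem_singleton.1 h').symm hne
  exact pair_antisymm hl h ((singleton_sublist.2 hy).append (Sublist.refl [a]))

/-- the set `{231, 213}` -/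
def T2 : Set (List ℕ) := {[2, 3, 1], [2, 1, 3]}

theorem T2_len : ∀ σ ∈ T2, σ.length = 3 := by
  rintro σ (rfl | rfl) <;> rfl

theorem avoids2_iff {l : List ℕ} :
    Avoids l T2 ↔ ∀ a b c, [a, b, c] <+ l → ¬ (c < a ∧ a < b) ∧ ¬ (b < a ∧ a < c) := by
  constructor
  · intro h a b c hs
    constructor
    · rintro ⟨h1, h2⟩
      exact h [2, 3, 1] (Or.inl rfl) (contains_three.2 ⟨a, b, c, hs, by omega⟩)
    · rintro ⟨h1, h2⟩
      exact h [2, 1, 3] (Or.inr rfl) (contains_three.2 ⟨a, b, c, hs, by omega⟩)
  · rintro h σ (rfl | rfl) hc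
    · obtain ⟨a, b, c, hs, h'⟩ := contains_three.1 hc
      exact (h a b c hs).1 (by omega)
    · obtain ⟨a, b, c, hs, h'⟩ := contains_three.1 hc
      exact (h a b c hs).2 (by omega)

theorem avoids2_cons {l : List ℕ} {x : ℕ} (h : Avoids l T2)
    (hx : (∀ z ∈ l, z < x) ∨ ∀ z ∈ l, x < z) : Avoids (x :: l) T2 := by
  rw [avoids2_iff] at h ⊢
  intro a b c hs
  rcases sublist_cons_iff.1 hs with h1 | ⟨r, hr, h1⟩
  · exact h a b c h1
  · obtain ⟨rfl, rfl⟩ := cons.inj hr
    have hb : b ∈ l := h1.subset (by simp)
    have hc : c ∈ l := h1.subset (by simp)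
    rcases hx with hx | hx
    · have := hx b hb; have := hx c hc; omega
    · have := hx b hb; have := hx c hc; omega

theorem avoids2_of_sorted {l : List ℕ} (h : l.Pairwise (· < ·)) : Avoids l T2 := by
  induction l with
  | nil => exact avoids_of_length_lt T2_len (by simp)
  | cons x l ih =>
    rw [pairwise_cons] at h
    exact avoids2_cons (ih h.2) (Or.inr h.1)

theorem avoids2_rev_append {G l : List ℕ} (h : Avoids l T2) (hG : G.Pairwise (· < ·))
    (hl : ∀ y ∈ G, ∀ z ∈ l, z < y) : Avoids (G.reverse ++ l) T2 := by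
  induction G generalizing l with
  | nil => simpa using h
  | cons g G ih =>
    rw [pairwise_cons] at hG
    rw [reverse_cons, append_assoc, singleton_append]
    refine ih (avoids2_cons h (Or.inl (hl g (by simp)))) hG.2 fun y hy z hz => ?_
    rcases mem_cons.1 hz with rfl | hz
    · exact hG.1 y hy
    · exact hl y (mem_cons_of_mem _ hy) z hz

/-- an inversion above the bottom entry is kept -/
theorem keep2 {a x y : ℕ} (hax : a < x) (hxy : x < y) (inp st : List ℕ)
    (h : (y ∈ st ∧ x ∈ inp) ∨ [y, x] <+ inp) : [y, x] <+ run T2 inp (st ++ [a]) := by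
  generalize hs : st ++ [a] = s
  induction inp, s using run.induct T2 generalizing st with
  | case1 s => simp at h
  | case2 z inp ih => simp at hs
  | case3 z inp w s hav ih =>
    rw [run_push hav]
    refine ih (z :: st) ?_ (by rw [cons_append, hs])
    rcases h with ⟨hy, hx⟩ | h
    · rcases mem_cons.1 hx with rfl | hx
      · exfalso
        rw [← hs] at hav
        exact (avoids2_iff.1 hav x y a
          (((singleton_sublist.2 hy).append (Sublist.refl [a])).cons_cons x)).1 ⟨hax, hxy⟩
      · exact Or.inl ⟨mem_cons_of_mem _ hy, hx⟩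
    · rcases pair_cons h with ⟨rfl, hx⟩ | h
      · exact Or.inl ⟨mem_cons_self, hx⟩
      · exact Or.inr h
  | case4 z inp w s hav ih =>
    rw [run_pop hav]
    cases st with
    | nil =>
      simp only [nil_append, cons.injEq] at hs
      exact absurd (avoids_of_length_lt T2_len (by rw [← hs.2]; simp)) hav
    | cons u st =>
      simp only [cons_append, cons.injEq] at hs
      obtain ⟨rfl, hs⟩ := hs
      rcases h with ⟨hy, hx⟩ | h
      · rcases mem_cons.1 hy with rfl | hy
        · exact (singleton_sublist.2 ((run_perm T2 _ _).symm.subset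
            (mem_append_left _ hx))).cons_cons y
        · exact (ih st (Or.inl ⟨hy, hx⟩) hs).cons u
      · exact (ih st (Or.inr h) hs).cons u

/-- with the maximum at the bottom, a right-to-left maximum stays in the stack -/
theorem west2 {n r : ℕ} (inp st : List ℕ) (hso : (st ++ [n]).Pairwise (· < ·))
    (hnd : (inp ++ (st ++ [n])).Nodup) (hn : ∀ y ∈ inp, y < n)
    (h : (r ∈ st ++ [n] ∧ ∀ y ∈ inp, y < r) ∨ (r ∈ inp ∧ ∀ y, [r, y] <+ inp → y < r)) :
    ∃ X G, run T2 inp (st ++ [n]) = X ++ r :: G ∧ (r :: G).Pairwise (· < ·) := by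
  generalize hs : st ++ [n] = s at *
  induction inp, s using run.induct T2 generalizing st with
  | case1 s =>
    rcases h with ⟨hr, -⟩ | ⟨hr, -⟩
    · obtain ⟨X, G, rfl⟩ := append_of_mem hr
      exact ⟨X, G, run_nil _ _, hso.sublist (sublist_append_right _ _)⟩
    · simp at hr
  | case2 z inp ih => simp at hs
  | case3 z inp w s hav ih =>
    rw [run_push hav]
    have hzw : z < w := by
      have hne : z ≠ w := by
        rintro rfl
        simp at hnd
      cases st with
      | nil =>
        simp only [nil_append, cons.injEq] at hs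
        rw [← hs.1]; exact hn z (by simp)
      | cons u st =>
        simp only [cons_append, cons.injEq] at hs
        obtain ⟨rfl, hs⟩ := hs
        have := (avoids2_iff.1 hav z u n (by rw [← hs]; simp)).2
        have := hn z (by simp)
        omega
    refine ih (z :: st) (fun y hy => hn y (by simp [hy])) (by rw [cons_append, hs]) ?_ ?_ ?_
    · rw [pairwise_cons] at hso ⊢
      refine ⟨fun y hy => ?_, pairwise_cons.2 hso⟩
      rcases mem_cons.1 hy with rfl | hy
      · exact hzw
      · exact hzw.trans (hso.1 y hy)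
    · exact (perm_middle.nodup_iff).2 hnd
    · rcases h with ⟨hr, h⟩ | ⟨hr, h⟩
      · exact Or.inl ⟨mem_cons_of_mem _ hr, fun y hy => h y (by simp [hy])⟩
      · rcases mem_cons.1 hr with rfl | hr
        · exact Or.inl ⟨mem_cons_self, fun y hy => h y ((singleton_sublist.2 hy).cons_cons r)⟩
        · exact Or.inr ⟨hr, fun y hy => h y (hy.cons z)⟩
  | case4 z inp w s hav ih =>
    rw [run_pop hav]
    cases st with
    | nil =>
      simp only [nil_append, cons.injEq] at hs
      exact absurd (avoids_of_length_lt T2_len (by rw [← hs.2]; simp)) hav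
    | cons u st =>
      simp only [cons_append, cons.injEq] at hs
      obtain ⟨rfl, hs⟩ := hs
      obtain ⟨X, G, h1, h2⟩ := ih st hn hs (pairwise_cons.1 hso).2
        (hnd.sublist ((sublist_cons_self _ _).append_left _)) (by
          rcases h with ⟨hr, h⟩ | h
          · rcases mem_cons.1 hr with rfl | hr
            · exfalso
              apply hav
              apply avoids2_of_sorted
              refine pairwise_cons.2 ⟨fun y hy => ?_, hso⟩
              rcases mem_cons.1 hy with rfl | hy
              · exact h z (by simp)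
              · exact (h z (by simp)).trans ((pairwise_cons.1 hso).1 y hy)
            · exact Or.inl ⟨hr, h⟩
          · exact Or.inr h)
      exact ⟨u :: X, G, by rw [h1]; rfl, h2⟩

/-- an increasing final run above the bottom entry gets reversed -/
theorem flip2 {a r y : ℕ} {G : List ℕ} (har : a < r) (hG : (r :: G).Pairwise (· < ·))
    (hy : y ∈ G) (X st : List ℕ) (hr : r ∉ X ++ st) :
    [y, r] <+ run T2 (X ++ r :: G) (st ++ [a]) := by
  generalize hs : st ++ [a] = s
  generalize hi : X ++ r :: G = inp
  induction inp, s using run.induct T2 generalizing st X with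
  | case1 s => simp at hi
  | case2 z inp ih => simp at hs
  | case3 z inp w s hav ih =>
    rw [run_push hav]
    cases X with
    | nil =>
      simp only [nil_append, cons.injEq] at hi
      obtain ⟨rfl, rfl⟩ := hi
      rw [pairwise_cons] at hG
      have hmax : ∀ u ∈ w :: s, u < r := by
        intro u hu
        rw [← hs] at hu hav
        rcases mem_append.1 hu with hu | hu
        · have := (avoids2_iff.1 hav r u a
            (((singleton_sublist.2 hu).append (Sublist.refl [a])).cons_cons r)).1
          have hne : u ≠ r := by rintro rfl; exact hr (by simpa using hu)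
          omega
        · rw [mem_singleton.1 hu]; exact har
      rw [run_of_avoids _ _ (avoids2_rev_append hav hG.2 fun v hv u hu => ?_)]
      · exact (singleton_sublist.2 (mem_reverse.2 hy)).append (by simp : [r] <+ r :: w :: s)
      · rcases mem_cons.1 hu with rfl | hu
        · exact hG.1 v hv
        · exact (hmax u hu).trans (hG.1 v hv)
    | cons x X =>
      simp only [cons_append, cons.injEq] at hi
      obtain ⟨rfl, hi⟩ := hi
      exact ih X (x :: st) (by simp at hr ⊢; tauto) (by rw [cons_append, hs]) hi
  | case4 z inp w s hav ih =>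
    rw [run_pop hav]
    cases st with
    | nil =>
      simp only [nil_append, cons.injEq] at hs
      exact absurd (avoids_of_length_lt T2_len (by rw [← hs.2]; simp)) hav
    | cons u st =>
      simp only [cons_append, cons.injEq] at hs
      obtain ⟨rfl, hs⟩ := hs
      exact (ih X st (by simp at hr ⊢; tauto) hs hi).cons u

open Classical in
/-- right-to-left maxima -/
noncomputable def RL (p : List ℕ) : Finset ℕ :=
  p.toFinset.filter fun x => ∀ y, [x, y] <+ p → y < x

theorem mem_RL {p : List ℕ} {x : ℕ} : x ∈ RL p ↔ x ∈ p ∧ ∀ y, [x, y] <+ p → y < x := by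
  simp [RL]

theorem head_mem_RL {T : Set (List ℕ)} (hT : ∀ σ ∈ T, σ.length = 3) {a : ℕ} {p : List ℕ}
    (hnd : (a :: p).Nodup) : a ∈ RL (sortMap T (a :: p)) := by
  obtain ⟨out, ho⟩ := sortMap_cons hT a p
  have h2 : (out ++ [a]).Nodup := ho ▸ (sortMap_perm T _).nodup_iff.2 hnd
  rw [ho, mem_RL]
  exact ⟨by simp, fun y hy => absurd hy (not_pair_last h2)⟩

theorem keep2' {a x y : ℕ} {p : List ℕ} (hax : a < x) (hxy : x < y) (h : [y, x] <+ a :: p) :
    [y, x] <+ sortMap T2 (a :: p) := by
  rw [sortMap, run_cons_nil]
  rcases pair_cons h with ⟨rfl, -⟩ | h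
  · omega
  · exact keep2 hax hxy p [] (Or.inr h)

theorem step_one {a : ℕ} {p : List ℕ} (hnd : (a :: p).Nodup) (hz : ∃ z ∈ p, a < z) :
    toColex (RL (a :: p)) < toColex (RL (sortMap T2 (a :: p))) := by
  have hna : a ∉ RL (a :: p) := by
    obtain ⟨z, hz, haz⟩ := hz
    intro h
    have := (mem_RL.1 h).2 z ((singleton_sublist.2 hz).cons_cons a)
    omega
  have hp := sortMap_perm T2 (a :: p)
  refine Finset.Colex.toColex_lt_toColex_iff_exists_forall_lt.2
    ⟨a, head_mem_RL T2_len hnd, hna, fun b hb hb' => ?_⟩
  by_contra hba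
  have hab : a < b := lt_of_le_of_ne (not_lt.1 hba) (by rintro rfl; exact hna hb)
  apply hb'
  rw [mem_RL] at hb ⊢
  refine ⟨hp.symm.subset hb.1, fun y hy => ?_⟩
  by_contra hyb
  have hne := pair_ne (hp.nodup_iff.2 hnd) hy
  have hby : b < y := by omega
  have hyp : y ∈ a :: p := hp.subset (hy.subset (by simp))
  rcases pair_total hb.1 hyp hne with h | h
  · exact hyb (hb.2 y h)
  · exact pair_antisymm (hp.nodup_iff.2 hnd) hy (keep2' hab hby h)

theorem step_two {n : ℕ} {p : List ℕ} (hnd : (n :: p).Nodup) (hn : ∀ z ∈ p, z < n) :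
    (sortMap T2 (n :: p)).Pairwise (· < ·) ∨
      toColex (RL (n :: p)) < toColex (RL (sortMap T2 (sortMap T2 (n :: p)))) := by
  have hp := sortMap_perm T2 (n :: p)
  have key : ∀ r ∈ RL (n :: p), ∃ X G, sortMap T2 (n :: p) = X ++ r :: G ∧
      (r :: G).Pairwise (· < ·) := by
    intro r hr
    rw [mem_RL] at hr
    rw [sortMap, run_cons_nil]
    refine west2 p [] (by simp) ((perm_append_comm.nodup_iff).1 hnd) hn ?_
    rcases mem_cons.1 hr.1 with rfl | h
    · exact Or.inl ⟨by simp, hn⟩
    · exact Or.inr ⟨h, fun y hy => hr.2 y (hy.cons n)⟩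
  generalize sortMap T2 (n :: p) = q at *
  have hq : q.Nodup := hp.nodup_iff.2 hnd
  cases q with
  | nil => exact Or.inl Pairwise.nil
  | cons a q =>
    by_cases ha : a ∈ RL (n :: p)
    · left
      obtain ⟨X, G, h1, h2⟩ := key a ha
      cases X with
      | nil => rw [h1]; exact h2
      | cons x X =>
        simp only [cons_append, cons.injEq] at h1
        obtain ⟨rfl, rfl⟩ := h1
        simp at hq
    · right
      have hp2 := sortMap_perm T2 (a :: q)
      refine Finset.Colex.toColex_lt_toColex_iff_exists_forall_lt.2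
        ⟨a, head_mem_RL T2_len hq, ha, fun b hb hb' => ?_⟩
      by_contra hba
      have hab : a < b := lt_of_le_of_ne (not_lt.1 hba) (by rintro rfl; exact ha hb)
      apply hb'
      obtain ⟨X, G, h1, h2⟩ := key b hb
      rw [mem_RL]
      refine ⟨hp2.symm.subset (by rw [h1]; simp), fun y hy => ?_⟩
      by_contra hyb
      have hne := pair_ne (hp2.nodup_iff.2 hq) hy
      have hby : b < y := by omega
      have hyp : y ∈ X ++ b :: G := h1 ▸ hp2.subset (hy.subset (by simp))
      apply pair_antisymm (hp2.nodup_iff.2 hq) hy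
      rcases mem_append.1 hyp with h | h
      · exact keep2' hab hby (h1 ▸ (singleton_sublist.2 h).append (by simp : [b] <+ b :: G))
      · rcases mem_cons.1 h with rfl | h
        · omega
        · cases X with
          | nil =>
            simp only [nil_append, cons.injEq] at h1
            omega
          | cons x X =>
            simp only [cons_append, cons.injEq] at h1
            obtain ⟨rfl, rfl⟩ := h1
            rw [sortMap, run_cons_nil]
            refine flip2 hab h2 h X [] ?_
            intro hbX
            simp only [append_nil] at hbX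
            have := (nodup_cons.1 hq).2
            rw [nodup_append] at this
            exact this.2.2 b hbX b (by simp) rfl

theorem iterate_perm (T : Set (List ℕ)) (j : ℕ) (p : List ℕ) : (sortMap T)^[j] p ~ p := by
  induction j with
  | zero => simp
  | succ j ih => rw [Function.iterate_succ_apply']; exact (sortMap_perm T _).trans ih

theorem eventually_sorted2 (p : List ℕ) (hp : p.Nodup) :
    ∃ j, ((sortMap T2)^[j] p).Pairwise (· < ·) := by
  obtain ⟨K, hK⟩ : ∃ K, ∀ q : List ℕ, q ~ p → ∑ x ∈ RL q, 2 ^ x ≤ K :=
    ⟨∑ x ∈ p.toFinset, 2 ^ x, fun q hq => Finset.sum_le_sum_of_subset fun x hx =>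
      mem_toFinset.2 (hq.subset (mem_RL.1 hx).1)⟩
  suffices H : ∀ (m : ℕ) (q : List ℕ), q ~ p → K - ∑ x ∈ RL q, 2 ^ x = m →
      ∃ j, ((sortMap T2)^[j] q).Pairwise (· < ·) from H _ p (Perm.refl _) rfl
  intro m
  induction m using Nat.strong_induction_on with
  | _ m ih =>
    intro q hq hm
    have hqn : q.Nodup := hq.nodup_iff.2 hp
    cases q with
    | nil => exact ⟨0, Pairwise.nil⟩
    | cons a q =>
      by_cases hz : ∃ z ∈ q, a < z
      · have h1 := (Finset.geomSum_lt_geomSum_iff_toColex_lt_toColex le_rfl).2 (step_one hqn hz)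
        have hq' := (sortMap_perm T2 (a :: q)).trans hq
        have h2 := hK _ hq'
        obtain ⟨j, hj⟩ := ih _ (by omega) _ hq' rfl
        exact ⟨j + 1, hj⟩
      · have hz' : ∀ z ∈ q, z < a := fun z h => by
          have h1 : ¬ a < z := fun h' => hz ⟨z, h, h'⟩
          have h2 : z ≠ a := by rintro rfl; exact (nodup_cons.1 hqn).1 h
          omega
        rcases step_two hqn hz' with h | h
        · exact ⟨1, h⟩
        · have h1 := (Finset.geomSum_lt_geomSum_iff_toColex_lt_toColex le_rfl).2 h
          have hq' := ((sortMap_perm T2 _).trans (sortMap_perm T2 (a :: q))).trans hq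
          have h2 := hK _ hq'
          obtain ⟨j, hj⟩ := ih _ (by omega) _ hq' rfl
          exact ⟨j + 2, hj⟩

end Pool.Agent.MP_cfa423_co

end

-- part MP_cfa423_co.Final
section

/-!
From eventual sorting to the classification of periodic points.
-/

namespace Pool.Agent.MP_cfa423_co

open List

theorem periodic_iff_of_eventually {T : Set (List ℕ)} {n : ℕ}
    (h1 : Avoids (range' 1 n) T) (h2 : Avoids (range' 1 n).reverse T)
    {p : List ℕ} (hp : p ~ range' 1 n)
    (hev : ∃ j, ((sortMap T)^[j] p).Pairwise (· < ·)) :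
    (∃ m, 1 ≤ m ∧ (sortMap T)^[m] p = p) ↔ (p = range' 1 n ∨ p = (range' 1 n).reverse) := by
  have e1 : sortMap T (range' 1 n) = (range' 1 n).reverse := by
    simpa [sortMap] using run_of_avoids (T := T) (range' 1 n) [] (by simpa using h2)
  have e2 : sortMap T (range' 1 n).reverse = range' 1 n := by
    simpa [sortMap] using run_of_avoids (T := T) (range' 1 n).reverse [] (by simpa using h1)
  constructor
  · rintro ⟨m, hm, hper⟩
    obtain ⟨j, hj⟩ := hev
    have hid : (sortMap T)^[j] p = range' 1 n :=
      ((iterate_perm T j p).trans hp).eq_of_pairwise (fun a b _ _ h h' => by omega) hj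
        (pairwise_lt_range' ..)
    have hall : ∀ k, (sortMap T)^[k] (range' 1 n) = range' 1 n ∨
        (sortMap T)^[k] (range' 1 n) = (range' 1 n).reverse := by
      intro k
      induction k with
      | zero => exact Or.inl rfl
      | succ k ih =>
        rw [Function.iterate_succ_apply']
        rcases ih with h | h
        · rw [h, e1]; exact Or.inr rfl
        · rw [h, e2]; exact Or.inl rfl
    have hmul : (sortMap T)^[m * j] p = p := by
      rw [Function.iterate_mul]
      exact Function.iterate_fixed hper j
    have : m * j = (m * j - j) + j := by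
      have : j ≤ m * j := Nat.le_mul_of_pos_left j hm
      omega
    rw [this, Function.iterate_add_apply, hid] at hmul
    rw [← hmul]
    exact hall _
  · rintro (rfl | rfl)
    · exact ⟨2, by norm_num, by simp [e1, e2]⟩
    · exact ⟨2, by norm_num, by simp [e1, e2]⟩

theorem periodic_T2 (n : ℕ) (p : List ℕ) (hp : p ~ range' 1 n) :
    (∃ m, 1 ≤ m ∧ (sortMap T2)^[m] p = p) ↔ (p = range' 1 n ∨ p = (range' 1 n).reverse) := by
  refine periodic_iff_of_eventually (avoids2_of_sorted (pairwise_lt_range' ..)) ?_ hp
    (eventually_sorted2 p (hp.nodup_iff.2 (nodup_range' ..)))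
  simpa using avoids2_rev_append (l := []) (avoids_of_length_lt T2_len (by simp))
    (pairwise_lt_range' (s := 1) (n := n)) (by simp)

end Pool.Agent.MP_cfa423_co

end
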